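import Mathlib
import Pool.Agent.Y27.Osc

set_option autoImplicit false

/-!
The oscillation phenomenon of Trofimov fails for finitely presented semigroups.
-/

namespace Pool.Agent.Results.MP_dd6e79_al.NoOscillation

open Filter

universe u

/-- `f ⪯ g`: there is a constant `C ≥ 1` with `f n ≤ C * g (C * n)` for all `n`. -/
def Dominated (f g : ℕ → ℕ) : Prop := ∃ C : ℕ, 1 ≤ C ∧ ∀ n, f n ≤ C * g (C * n)

/-- `f ∼ g`: `f ⪯ g` and `g ⪯ f`. -/
def Equivalent (f g : ℕ → ℕ) : Prop := Dominated f g ∧ Dominated g f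

/-- The growth function: the number of elements of `S` which are represented by nonempty words of
length at most `n` over the finite set `X`. -/
noncomputable def growth {S : Type u} [Semigroup S] (X : Finset S) (n : ℕ) : ℕ :=
  {s : S | ∃ w : FreeSemigroup X,
    w.length ≤ n ∧ FreeSemigroup.lift (fun x : X => (x : S)) w = s}.ncard

/-- `S` is isomorphic to the quotient of a free semigroup of finite rank by the congruence
generated by a finite set of pairs of nonempty words. -/
def FinitelyPresented (S : Type u) [Semigroup S] : Prop :=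
  ∃ (k : ℕ) (R : Finset (FreeSemigroup (Fin k) × FreeSemigroup (Fin k))),
    Nonempty (S ≃* (conGen (fun u v => (u, v) ∈ R)).Quotient)

/-- For every `c > 1`, `f n ≤ c ^ n` for all large `n`. -/
def Subexponential (f : ℕ → ℕ) : Prop :=
  ∀ c : ℝ, 1 < c → ∀ᶠ n : ℕ in atTop, (f n : ℝ) ≤ c ^ n

instance (k : ℕ) : Countable (FreeSemigroup (Fin k)) := by
  have : Function.Injective (fun w : FreeSemigroup (Fin k) => (w.head, w.tail)) := by
    rintro ⟨a, l⟩ ⟨b, m⟩ h
    simp only [Prod.mk.injEq] at h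
    rw [h.1, h.2]
  exact this.countable

/-- codes for pairs (finitely presented semigroup, finite subset) -/
abbrev Code : Type :=
  Σ k : ℕ, Finset (FreeSemigroup (Fin k) × FreeSemigroup (Fin k)) × Finset (FreeSemigroup (Fin k))

open Classical in
/-- the growth function of a code -/
noncomputable def codeGrowth (c : Code) : ℕ → ℕ :=
  growth (S := (conGen (fun u v => (u, v) ∈ c.2.1)).Quotient)
    (Finset.image (Con.toQuotient : _ → (conGen (fun u v => (u, v) ∈ c.2.1)).Quotient) c.2.2)

theorem growth_equiv {S : Type u} {T : Type} [Semigroup S] [Semigroup T] [DecidableEq T]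
    (e : S ≃* T) (X : Finset S) : growth X = growth (X.image e) := by
  funext n
  unfold growth
  rw [← Set.ncard_image_of_injective _ e.injective]
  congr 1
  ext t
  constructor
  · rintro ⟨s, ⟨w, hw, rfl⟩, rfl⟩
    refine ⟨FreeSemigroup.map (fun x : X => (⟨e x, Finset.mem_image_of_mem _ x.2⟩ :
      {y // y ∈ X.image e})) w, by simpa using hw, ?_⟩
    clear hw
    induction w with
    | ih1 x => rfl
    | ih2 x y h1 h2 => rw [map_mul, map_mul, map_mul, map_mul, h1, h2]
  · rintro ⟨w, hw, rfl⟩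
    have hf : ∀ y : {y // y ∈ X.image e}, ∃ x : X, e x = y := by
      rintro ⟨y, hy⟩
      obtain ⟨x, hx, rfl⟩ := Finset.mem_image.1 hy
      exact ⟨⟨x, hx⟩, rfl⟩
    choose f hf using hf
    refine ⟨_, ⟨FreeSemigroup.map f w, by simpa using hw, rfl⟩, ?_⟩
    clear hw
    induction w with
    | ih1 x => exact hf x
    | ih2 x y h1 h2 => rw [map_mul, map_mul, map_mul, map_mul, h1, h2]

theorem exists_code {S : Type u} [Semigroup S] (hS : FinitelyPresented S) (X : Finset S) :
    ∃ c : Code, codeGrowth c = growth X := by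
  classical
  obtain ⟨k, R, ⟨e⟩⟩ := hS
  have hsurj : ∀ q : (conGen (fun u v => (u, v) ∈ R)).Quotient,
      ∃ w : FreeSemigroup (Fin k), Con.toQuotient w = q := by
    intro q
    induction q using Con.induction_on with
    | H w => exact ⟨w, rfl⟩
  choose f hf using hsurj
  refine ⟨⟨k, R, Finset.image (fun s => f (e s)) X⟩, ?_⟩
  rw [growth_equiv e X]
  have himg : Finset.image (Con.toQuotient : _ → (conGen (fun u v => (u, v) ∈ R)).Quotient)
      (Finset.image (fun s => f (e s)) X) = Finset.image e X := by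
    rw [Finset.image_image]
    apply Finset.image_congr
    intro s _
    exact hf (e s)
  unfold codeGrowth
  simp only
  rw [himg]

/-- There is a strictly increasing `f₂ ⪯ 2 ^ n`, `f₂ ≁ 2 ^ n` such that for every subexponential
`f₁` (for example `n ^ 3`), every finitely presented semigroup `S` and every finite subset `X`
(for example a finite generating set): either `f₁ n ≤ growth X n` for all large `n`, or
`growth X n ≤ f₂ n` for all large `n`. -/
theorem result :
    ∃ f₂ : ℕ → ℕ, StrictMono f₂ ∧ Dominated f₂ (fun n => 2 ^ n) ∧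
      ¬ Equivalent f₂ (fun n => 2 ^ n) ∧
      ∀ f₁ : ℕ → ℕ, Subexponential f₁ →
        ∀ (S : Type u) [Semigroup S], FinitelyPresented S → ∀ X : Finset S,
          (∀ᶠ n in atTop, f₁ n ≤ growth X n) ∨ (∀ᶠ n in atTop, growth X n ≤ f₂ n) := by
  classical
  -- enumerate the subexponential growth functions of codes
  have hcount : Set.Countable {g : ℕ → ℕ | Pool.Agent.Y27.Osc.Subexp g ∧
      (g = 0 ∨ ∃ c : Code, codeGrowth c = g)} := by
    apply Set.Countable.mono (s₂ := {0} ∪ Set.range codeGrowth)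
    · rintro g ⟨-, rfl | ⟨c, rfl⟩⟩
      · simp
      · right; exact ⟨c, rfl⟩
    · exact (Set.countable_singleton _).union (Set.countable_range _)
  have hne : Set.Nonempty {g : ℕ → ℕ | Pool.Agent.Y27.Osc.Subexp g ∧
      (g = 0 ∨ ∃ c : Code, codeGrowth c = g)} := by
    refine ⟨0, fun c hc => Eventually.of_forall fun n => ?_, Or.inl rfl⟩
    simp only [Pi.zero_apply, Nat.cast_zero]
    positivity
  obtain ⟨G, hG⟩ := hcount.exists_eq_range hne
  have hG' : ∀ i, Pool.Agent.Y27.Osc.Subexp (G i) := by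
    intro i
    have : G i ∈ Set.range G := ⟨i, rfl⟩
    rw [← hG] at this
    exact this.1
  obtain ⟨f₂, h1, h2, h3⟩ := Pool.Agent.Y27.Osc.exists_majorant G hG'
  refine ⟨f₂, h1, h2.dominated, fun h => h2.not_dominates h.2, ?_⟩
  intro f₁ hf₁ S _ hS X
  rcases Pool.Agent.Y27.Osc.dichotomy (fun n => growth X n + 1) (fun n => by omega)
    (fun m n => Pool.Agent.Y27.Osc.growth_submul X m n) with h | ⟨c, hc, h⟩
  · right
    have hmem : growth X ∈ {g : ℕ → ℕ | Pool.Agent.Y27.Osc.Subexp g ∧
        (g = 0 ∨ ∃ c : Code, codeGrowth c = g)} :=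
      ⟨h.mono (fun n => by omega), Or.inr (exists_code hS X)⟩
    rw [hG] at hmem
    obtain ⟨i, hi⟩ := hmem
    filter_upwards [h3 i] with n hn
    rw [hi] at hn
    exact hn
  · left
    have hf : Pool.Agent.Y27.Osc.Subexp f₁ := hf₁
    filter_upwards [hf.add_one hc] with n hn
    have h4 := h n
    have h5 : ((f₁ n : ℝ)) + 1 ≤ ((growth X n + 1 : ℕ) : ℝ) := hn.trans h4
    have h6 : f₁ n + 1 ≤ growth X n + 1 := by exact_mod_cast h5
    omega

/-- The literal negated form of the question, with `f₁ n = n ^ 3`. -/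
theorem negated_form :
    ∃ f₁ f₂ : ℕ → ℕ, StrictMono f₁ ∧ StrictMono f₂ ∧
      Dominated (fun n => n ^ 2) f₁ ∧ Dominated f₂ (fun n => 2 ^ n) ∧
      ¬ Equivalent f₁ (fun n => n ^ 2) ∧ ¬ Equivalent f₂ (fun n => 2 ^ n) ∧
      ∀ (S : Type u) [Semigroup S], FinitelyPresented S →
        ∀ X : Finset S, Subsemigroup.closure (X : Set S) = ⊤ →
          (∀ᶠ n in atTop, f₁ n ≤ growth X n) ∨ (∀ᶠ n in atTop, growth X n ≤ f₂ n) := by
  obtain ⟨f₂, h1, h2, h3, h4⟩ := result.{u}
  refine ⟨fun n => n ^ 3, f₂, ?_, h1, ⟨1, le_rfl, ?_⟩, h2, ?_, h3, ?_⟩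
  · intro a b h
    exact Nat.pow_lt_pow_left h (by norm_num)
  · intro n
    simp only [one_mul]
    rcases Nat.eq_zero_or_pos n with rfl | hn
    · simp
    · exact Nat.pow_le_pow_right hn (by norm_num)
  · rintro ⟨⟨C, hC, h⟩, -⟩
    have h5 := h (C ^ 3 + 1)
    simp only at h5
    have h6 : C * (C * (C ^ 3 + 1)) ^ 2 = C ^ 3 * (C ^ 3 + 1) ^ 2 := by ring
    rw [h6] at h5
    have h7 : (C ^ 3 + 1) ^ 3 = (C ^ 3 + 1) * (C ^ 3 + 1) ^ 2 := by ring
    rw [h7] at h5
    have h8 : 0 < (C ^ 3 + 1) ^ 2 := by positivity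
    have h9 := Nat.le_of_mul_le_mul_right h5 h8
    omega
  · intro S _ hS X _
    refine h4 (fun n => n ^ 3) ?_ S hS X
    intro c hc
    have ht : Tendsto (fun n : ℕ => (n : ℝ) ^ 3 / c ^ n) atTop (nhds 0) :=
      tendsto_pow_const_div_const_pow_of_one_lt 3 hc
    filter_upwards [ht.eventually (gt_mem_nhds (zero_lt_one))] with n hn
    rw [div_lt_one (by positivity)] at hn
    push_cast
    exact hn.le

end Pool.Agent.Results.MP_dd6e79_al.NoOscillation
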